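import Pool.Agent.H82.G.R_seed8.H919R4.ZS.Contr

set_option autoImplicit false
set_option linter.unusedSectionVars false

open scoped Matrix ENNReal

namespace Pool.Agent.H919R4.ZS

universe u

variable {G : Type u} [Group G]

/-- `ℓ²(G)` as a Mathlib `lp` space -/
abbrev L2 (G : Type u) : Type u := lp (fun _ : G => ℂ) 2

/-- left translation -/
noncomputable def lregL (g : G) : L2 G →L[ℂ] L2 G := lreg g

@[simp] lemma lregL_apply (g : G) (f : L2 G) (h : G) : lregL g f h = f (g⁻¹ * h) := rfl

/-- matrices of bounded operators acting on tuples of `ℓ²` functions -/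
noncomputable def act {a b : ℕ} (M : Matrix (Fin a) (Fin b) (L2 G →L[ℂ] L2 G)) (v : Fin b → L2 G) :
    Fin a → L2 G := fun i => ∑ j, M i j (v j)

lemma act_mul {a b c : ℕ} (M : Matrix (Fin a) (Fin b) (L2 G →L[ℂ] L2 G))
    (N : Matrix (Fin b) (Fin c) (L2 G →L[ℂ] L2 G)) (v : Fin c → L2 G) :
    act (M * N) v = act M (act N v) := by
  funext i
  simp only [act, Matrix.mul_apply, sum_apply, map_sum]
  rw [Finset.sum_comm]
  rfl

lemma act_add {a b : ℕ} (M N : Matrix (Fin a) (Fin b) (L2 G →L[ℂ] L2 G)) (v : Fin b → L2 G) :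
    act (M + N) v = act M v + act N v := by
  funext i
  simp [act, Finset.sum_add_distrib]

lemma act_one {a : ℕ} (v : Fin a → L2 G) :
    act (1 : Matrix (Fin a) (Fin a) (L2 G →L[ℂ] L2 G)) v = v := by
  funext i
  simp only [act]
  rw [Finset.sum_eq_single i]
  · simp
  · intro j _ hj; simp [hj.symm]
  · simp

lemma act_zero {a b : ℕ} (M : Matrix (Fin a) (Fin b) (L2 G →L[ℂ] L2 G)) :
    act M (0 : Fin b → L2 G) = 0 := by
  funext i
  simp [act]

/-- the integral group ring acting on `ℓ²(G)` -/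
noncomputable def L : MonoidAlgebra ℤ G →+* (L2 G →L[ℂ] L2 G) := toOp G

lemma L_single (g : G) (c : ℤ) : L (MonoidAlgebra.single g c) = c • lregL g := by
  have h : toOp G (MonoidAlgebra.single g c) = c • lreg g := by
    change MonoidAlgebra.liftNC _ _ _ = _
    rw [MonoidAlgebra.liftNC_single]
    change ((c : ℤ) : Op G) * lregHom G g = c • lreg g
    rw [← zsmul_eq_mul]
    rfl
  exact h

/-- the inclusion of `C*_r(G)` into the bounded operators -/
noncomputable def valR : RedC G →+* (L2 G →L[ℂ] L2 G) where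
  toFun x := Subtype.val (p := fun y => y ∈ redCstar G) x
  map_one' := rfl
  map_mul' _ _ := rfl
  map_zero' := rfl
  map_add' _ _ := rfl

lemma coe_toRed (a : MonoidAlgebra ℤ G) : valR (toRed G a) = L a := rfl

lemma map_one' {S T : Type*} [Ring S] [Ring T] (ψ : S →+* T) {a : ℕ} :
    (1 : Matrix (Fin a) (Fin a) S).map ψ = 1 := by
  refine funext fun i => funext fun j => ?_
  by_cases h : i = j
  · subst h; simp
  · simp [h]

lemma map_ident0 {S T : Type*} [Ring S] [Ring T] (ψ : S →+* T) {a b : ℕ}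
    (P : Matrix (Fin a) (Fin b) S) (Q : Matrix (Fin b) (Fin a) S)
    (h : P * Q = 1) : P.map ψ * Q.map ψ = 1 := by
  rw [← Matrix.map_mul, h, map_one']

lemma map_ident {S T : Type*} [Ring S] [Ring T] (ψ : S →+* T) {a b c : ℕ}
    (P : Matrix (Fin a) (Fin b) S) (Q : Matrix (Fin b) (Fin a) S)
    (P' : Matrix (Fin a) (Fin c) S) (Q' : Matrix (Fin c) (Fin a) S)
    (h : P * Q + P' * Q' = 1) : P.map ψ * Q.map ψ + P'.map ψ * Q'.map ψ = 1 := by
  rw [← Matrix.map_mul, ← Matrix.map_mul, ← Matrix.map_add _ (map_add _), h, map_one']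

/-- the three vanishing statements for the cochains with values in `ℓ²(G)` -/
structure Van (X : FinRes G) : Prop where
  h0 : ∀ v : Fin (X.n 0) → L2 G, act ((X.d 0).map L) v = 0 → v = 0
  h1 : ∀ v : Fin (X.n 1) → L2 G, act ((X.d 1).map L) v = 0 → ∃ w, act ((X.d 0).map L) w = v
  h2 : ∀ v : Fin (X.n 2) → L2 G, act ((X.d 2).map L) v = 0 → ∃ w, act ((X.d 1).map L) w = v

theorem van_of_homology (X : FinRes G)
    (h0 : Subsingleton (X.homology (toRed G) 0)) (h1 : Subsingleton (X.homology (toRed G) 1))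
    (h2 : Subsingleton (X.homology (toRed G) 2)) : Van X := by
  obtain ⟨s0, s1, s2, e0, e1, e2⟩ := contraction X (toRed G) h0 h1 h2
  have key : ∀ i, ((X.d i).map (toRed G)).map (valR (G := G)) = (X.d i).map (L (G := G)) := by
    intro i
    refine funext fun j => funext fun k => ?_
    exact coe_toRed (X.d i j k)
  have f0 : s0.map (valR (G := G)) * (X.d 0).map L = 1 := by
    have := map_ident0 (valR (G := G)) _ _ e0
    rwa [key 0] at this
  have f1 : (X.d 0).map L * s0.map (valR (G := G)) + s1.map (valR (G := G)) * (X.d 1).map L = 1 := by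
    have := map_ident (valR (G := G)) _ _ _ _ e1
    rwa [key 0, key 1] at this
  have f2 : (X.d 1).map L * s1.map (valR (G := G)) + s2.map (valR (G := G)) * (X.d 2).map L = 1 := by
    have := map_ident (valR (G := G)) _ _ _ _ e2
    rwa [key 1, key 2] at this
  refine ⟨?_, ?_, ?_⟩
  · intro v hv
    rw [← act_one v, ← f0, act_mul, hv, act_zero]
  · intro v hv
    refine ⟨act (s0.map (valR (G := G))) v, ?_⟩
    conv_rhs => rw [← act_one v, ← f1, act_add, act_mul, act_mul, hv, act_zero, add_zero]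
  · intro v hv
    refine ⟨act (s1.map (valR (G := G))) v, ?_⟩
    conv_rhs => rw [← act_one v, ← f2, act_add, act_mul, act_mul, hv, act_zero, add_zero]

end Pool.Agent.H919R4.ZS
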