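import Pool.Agent.H82.G.R_seed8.H919R4.ZS.Circle

set_option autoImplicit false
set_option linter.unusedSectionVars false

open scoped Matrix ENNReal

namespace Pool.Agent.H919R4.ZS

universe u

variable {G : Type u} [Group G]

lemma tendsto_cofinite (v : L2 G) : Filter.Tendsto (fun h => v h) Filter.cofinite (nhds 0) := by
  have h2 : 0 < (2 : ℝ≥0∞).toReal := by norm_num
  have ht := ((lp.memℓp v).summable h2).tendsto_cofinite_zero
  have ht2 : Filter.Tendsto (fun h => ‖v h‖) Filter.cofinite (nhds 0) := by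
    have h3 : (2 : ℝ≥0∞).toReal = ((2 : ℕ) : ℝ) := by norm_num
    simp only [h3, Real.rpow_natCast] at ht
    have h4 := ht.sqrt
    simpa [Real.sqrt_sq] using h4
  exact tendsto_zero_iff_norm_tendsto_zero.2 ht2

/-- constant functions, for finite groups -/
noncomputable def cst [Finite G] (c : ℂ) : L2 G := ⟨fun _ => c, Memℓp.all _⟩

lemma L_cst [Finite G] (a : MonoidAlgebra ℤ G) (c : ℂ) :
    L a (cst c) = ((augm G a : ℤ) : ℂ) • (cst c : L2 G) := by
  refine MonoidAlgebra.induction_linear a ?_ ?_ ?_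
  · simp
  · intro x y hx hy
    rw [map_add, add_apply, hx, hy, map_add]
    push_cast
    rw [add_smul]
  · intro g r
    rw [L_single, augm_single]
    have e1 : (r • lregL g : L2 G →L[ℂ] L2 G) (cst c) = (r : ℂ) • lregL g (cst c) := by
      rw [Int.cast_smul_eq_zsmul]; simp
    rw [e1]
    rfl

theorem infinite_of_van (X : FinRes G) (hV : Van X) : Infinite G := by
  rcases finite_or_infinite G with hfin | hinf
  swap
  · exact hinf
  exfalso
  have h1 : act ((X.d 0).map L) (fun j => (cst ((X.aug j : ℤ) : ℂ) : L2 G)) = 0 := by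
    funext i
    have e0 : (Pi.single i 1 : Fin (X.n 1) → MonoidAlgebra ℤ G) ᵥ* X.d 0 = X.d 0 i := by
      funext j; simp [Matrix.vecMul, dotProduct, Pi.single_apply]
    have e1 : eps X (X.d 0 i) = 0 := by rw [← e0, eps_d]
    simp only [act, Matrix.map_apply, L_cst]
    have e2 : ∀ j, ((augm G (X.d 0 i j) : ℤ) : ℂ) • (cst ((X.aug j : ℤ) : ℂ) : L2 G) =
        ((augm G (X.d 0 i j) * X.aug j : ℤ) : ℂ) • (cst 1 : L2 G) := by
      intro j
      ext h
      rw [lp.coeFn_smul, Pi.smul_apply, lp.coeFn_smul, Pi.smul_apply]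
      change _ * _ = _ * (1 : ℂ)
      change _ * ((X.aug j : ℤ) : ℂ) = _
      push_cast
      ring
    rw [Finset.sum_congr rfl (fun j _ => e2 j), ← Finset.sum_smul, ← Int.cast_sum]
    change ((eps X (X.d 0 i) : ℤ) : ℂ) • (cst 1 : L2 G) = 0
    rw [e1]; simp
  have h2 := hV.h0 _ h1
  obtain ⟨x0, hx0⟩ := X.surj
  have h3 : ∀ j, X.aug j = 0 := by
    intro j
    have e := congrArg (fun v : L2 G => v 1) (congrFun h2 j)
    change ((X.aug j : ℤ) : ℂ) = 0 at e
    exact_mod_cast e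
  simp [h3] at hx0

/-- `H⁰(G; ℤ[G]) = 0` -/
theorem H0 (X : FinRes G) (hV : Van X) (y : Fin (X.n 0) → MonoidAlgebra ℤ G)
    (hy : X.d 0 *ᵥ y = 0) : y = 0 := by
  have h1 := hV.h0 (fun j => hat (y j)) (by
    rw [act_hat, hy]
    funext i
    exact hat_zero)
  funext j
  apply hat_injective
  rw [congrFun h1 j]
  exact hat_zero.symm

/-- `H¹(G; ℤ[G]) = 0` -/
theorem H1 (X : FinRes G) (hV : Van X) (hG : Infinite G)
    (z : Fin (X.n 1) → MonoidAlgebra ℤ G) (hz : X.d 1 *ᵥ z = 0) : ∃ y, X.d 0 *ᵥ y = z := by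
  obtain ⟨v, hv⟩ := hV.h1 (fun j => hat (z j)) (by
    rw [act_hat, hz]
    funext i
    exact hat_zero)
  obtain ⟨x0, hx0⟩ := X.surj
  change eps X x0 = 1 at hx0
  have hI : ∀ y, eps X y = 0 → ∃ n : ℤ, pV y v 1 = n := by
    intro y hy
    obtain ⟨x, rfl⟩ := exists_lift X y hy
    refine ⟨(∑ j, x j * z j).coeff 1, ?_⟩
    rw [pV_vecMul, hv, pV_hat, hat_apply]
  have hbase : ∃ n : ℤ, pV x0 v 1 = n := by
    have hn : ∀ h : G, ∃ n : ℤ, pV x0 v 1 - pV x0 v h = n := by
      intro h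
      obtain ⟨n, hn⟩ := hI (x0 - (MonoidAlgebra.single h⁻¹ 1 : MonoidAlgebra ℤ G) • x0) (by
        rw [eps_sub, eps_smul, augm_single, hx0]; norm_num)
      refine ⟨n, ?_⟩
      rw [pV_apply x0 v h, ← hn, pV_sub, lp.coeFn_sub, Pi.sub_apply]
    have ht : Filter.Tendsto (fun h => pV x0 v 1 - pV x0 v h) Filter.cofinite
        (nhds (pV x0 v 1 - 0)) := tendsto_const_nhds.sub (tendsto_cofinite _)
    have hcl : IsClosed (Set.range (fun n : ℤ => (n : ℂ))) := by
      have h5 := (Complex.isometry_ofReal.isClosedEmbedding.comp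
        Int.isClosedEmbedding_coe_real).isClosed_range
      have h6 : Set.range (fun n : ℤ => (n : ℂ)) =
          Set.range ((fun x : ℝ => (x : ℂ)) ∘ (fun n : ℤ => (n : ℝ))) := by
        congr 1
      rw [h6]
      exact h5
    have hm := hcl.mem_of_tendsto ht (Filter.Eventually.of_forall (fun h => by
      obtain ⟨n, hn⟩ := hn h
      exact ⟨n, hn.symm⟩))
    rw [sub_zero] at hm
    obtain ⟨n, hn⟩ := hm
    exact ⟨n, hn.symm⟩
  obtain ⟨n0, hn0⟩ := hbase
  have hall : ∀ y, ∃ n : ℤ, pV y v 1 = n := by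
    intro y
    have e0 : pV (eps X y • x0) v 1 = (eps X y * n0 : ℤ) := by
      have e1 : (eps X y) • x0 = ((eps X y : MonoidAlgebra ℤ G)) • x0 := by
        rw [← Int.cast_smul_eq_zsmul (MonoidAlgebra ℤ G)]
      rw [e1, pV_smul, map_intCast]
      have e2 : ∀ (m : ℤ) (w : L2 G), ((m : L2 G →L[ℂ] L2 G) w) 1 = (m : ℂ) * w 1 := by
        intro m w
        have : ((m : L2 G →L[ℂ] L2 G) w) = (m : ℂ) • w := by
          rw [Int.cast_smul_eq_zsmul, ← Int.smul_one_eq_cast]
          simp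
        rw [this]; rfl
      rw [e2, hn0]
      push_cast
      ring
    obtain ⟨n, hn⟩ := hI (y - eps X y • x0) (by
      rw [eps_sub, eps_zsmul, hx0]; ring)
    rw [pV_sub, lp.coeFn_sub, Pi.sub_apply, e0] at hn
    exact ⟨n + eps X y * n0, by push_cast; push_cast at hn; rw [← hn]; ring⟩
  have hint : ∀ j h, ∃ n : ℤ, v j h = n := by
    intro j h
    obtain ⟨n, hn⟩ := hall ((MonoidAlgebra.single h⁻¹ 1 : MonoidAlgebra ℤ G) • Pi.single j 1)
    refine ⟨n, ?_⟩
    rw [← hn, ← pV_apply, pV_single]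
  choose y hy using fun j => exists_hat (v j) (hint j)
  refine ⟨y, ?_⟩
  have e1 := act_hat (X.d 0) y
  rw [funext hy, hv] at e1
  funext i
  exact hat_injective (congrFun e1 i).symm

lemma exists_cols {S : Type*} [Ring S] {a b c : ℕ} (P : Matrix (Fin a) (Fin b) S)
    (T : Matrix (Fin a) (Fin c) S)
    (h : ∀ k, ∃ y, P *ᵥ y = fun i => T i k) : ∃ s : Matrix (Fin b) (Fin c) S, P * s = T := by
  choose s hs using h
  refine ⟨fun j k => s k j, funext fun i => funext fun k => ?_⟩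
  exact congrFun (hs k) i

lemma col_mul {S : Type*} [Ring S] {a b c : ℕ} (P : Matrix (Fin a) (Fin b) S)
    (T : Matrix (Fin b) (Fin c) S) (h : P * T = 0) (k : Fin c) : P *ᵥ (fun i => T i k) = 0 := by
  funext i
  exact congrFun (congrFun h i) k

/-- no finite free resolution of length at most two has vanishing `ℓ²`-cohomology -/
theorem no_dim_two (X : FinRes G) (hV : Van X) (hlen : X.len ≤ 2) : False := by
  have hG := infinite_of_van X hV
  have hn3 : X.n 3 = 0 := X.n_eq_zero 3 (by omega)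
  have h2 : ∀ z : Fin (X.n 2) → MonoidAlgebra ℤ G, X.d 2 *ᵥ z = 0 := by
    intro z
    funext i
    exact (Fin.cast hn3 i).elim0
  obtain ⟨S2, hS2⟩ := exists_cols (X.d 1) (1 : Matrix (Fin (X.n 2)) (Fin (X.n 2)) (MonoidAlgebra ℤ G))
    (fun k => H2 X hV hG _ (h2 _))
  have e1 : X.d 1 * (1 - S2 * X.d 1) = 0 := by
    rw [Matrix.mul_sub, Matrix.mul_one, ← Matrix.mul_assoc, hS2, Matrix.one_mul, sub_self]
  obtain ⟨S1, hS1⟩ := exists_cols (X.d 0) (1 - S2 * X.d 1) (fun k => H1 X hV hG _ (col_mul _ _ e1 k))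
  have e2 : X.d 0 * (1 - S1 * X.d 0) = 0 := by
    rw [Matrix.mul_sub, Matrix.mul_one, ← Matrix.mul_assoc, hS1, Matrix.sub_mul, Matrix.one_mul,
      Matrix.mul_assoc, d_mul_d, Matrix.mul_zero]
    simp
  have e3 : (1 - S1 * X.d 0 : Matrix (Fin (X.n 0)) (Fin (X.n 0)) (MonoidAlgebra ℤ G)) = 0 := by
    refine funext fun i => funext fun k => ?_
    exact congrFun (H0 X hV _ (col_mul _ _ e2 k)) i
  obtain ⟨x0, hx0⟩ := X.surj
  change eps X x0 = 1 at hx0
  have e4 : S1 * X.d 0 = 1 := (sub_eq_zero.1 e3).symm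
  have e5 : (x0 ᵥ* S1) ᵥ* X.d 0 = x0 := by
    rw [Matrix.vecMul_vecMul, e4, Matrix.vecMul_one]
  rw [← e5, eps_d] at hx0
  exact zero_ne_one hx0

lemma subsingleton_cohomology (X : FinRes G) (k : ℕ)
    (h : ∀ z, X.d k *ᵥ z = 0 → z ∈ X.coboundaries k) : Subsingleton (X.cohomology k) := by
  rw [QuotientAddGroup.subsingleton_iff, AddSubgroup.addSubgroupOf_eq_top]
  intro z hz
  exact h z hz

theorem main (X : FinRes G) (h : X.len ≤ 2 ∨ ∃ k ≤ 2, Nontrivial (X.cohomology k)) :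
    ∃ i ≤ 2, Nontrivial (X.homology (toRed G) i) := by
  by_contra hcon
  push Not at hcon
  have hs : ∀ i ≤ 2, Subsingleton (X.homology (toRed G) i) := by
    intro i hi
    exact hcon i hi
  have hV : Van X := van_of_homology X (hs 0 (by norm_num)) (hs 1 (by norm_num)) (hs 2 le_rfl)
  have hG := infinite_of_van X hV
  rcases h with h | ⟨k, hk, hnt⟩
  · exact no_dim_two X hV h
  · refine not_nontrivial_iff_subsingleton.2 ?_ hnt
    apply subsingleton_cohomology
    intro z hz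
    interval_cases k
    · rw [H0 X hV z hz]; exact AddSubgroup.zero_mem _
    · obtain ⟨y, hy⟩ := H1 X hV hG z hz
      exact ⟨y, hy⟩
    · obtain ⟨y, hy⟩ := H2 X hV hG z hz
      exact ⟨y, hy⟩

end Pool.Agent.H919R4.ZS
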